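import Mathlib

/-!
# MP_981e77_lc: the only-if direction fails

There is a finite structure `B` with one ternary relation such that `1in3 → B`, the affine integer
programming relaxation solves `PCSP(1in3, B)`, and no structure `E_{3^p} × NAE` (indeed no
`E_m × NAE` with `m ≥ 1`) maps homomorphically to `B`.

The structure is the image of `ℤ` under the finite colouring
`x ↦ (x mod 27, lead x, lead (x - 1))`, where `lead d` is the pair
(parity of the 3-adic valuation `v` of `d`, residue of `d / 3 ^ v` mod 27).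
-/

namespace Pool.Agent.Results.MP_981e77_lc.NoFiniteWitness

/-- A structure with one ternary relation: a domain and a set of triples. -/
structure Str where
  /-- the domain -/
  D : Type
  /-- the ternary relation, a set of triples -/
  R : Set (Fin 3 → D)

/-- There is a homomorphism from `X` to `Y`. -/
def Hom (X Y : Str) : Prop :=
  ∃ f : X.D → Y.D, ∀ t ∈ X.R, (fun i => f (t i)) ∈ Y.R

/-- The product of two structures. -/
def prod (X Y : Str) : Str :=
  ⟨X.D × Y.D, {t | (fun i => (t i).1) ∈ X.R ∧ (fun i => (t i).2) ∈ Y.R}⟩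

/-- The structure 1in3. -/
def oneInThree : Str := ⟨Fin 2, {![1, 0, 0], ![0, 1, 0], ![0, 0, 1]}⟩

/-- The structure NAE: all triples except the two constant ones. -/
def NAE : Str := ⟨Fin 2, {t | t ≠ ![0, 0, 0] ∧ t ≠ ![1, 1, 1]}⟩

/-- The structure `E_m`: domain `{0, …, m-1}`, triples with `x + y + z ≡ 1 (mod m)`. -/
def E (m : ℕ) : Str := ⟨Fin m, {t | (t 0 : ℕ) + (t 1 : ℕ) + (t 2 : ℕ) ≡ 1 [MOD m]}⟩

/-- The affine integer relaxation of the instance `X` with (finite) template `A` has an integer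
solution: `μ` gives the variables for pairs (element, value), `ν` the variables for pairs
(tuple of `X`, tuple of `A`). -/
def AIPAccepts (X A : Str) : Prop :=
  ∃ (μ : X.D → A.D → ℤ) (ν : X.R → A.R → ℤ),
    (∀ x, ∑ᶠ a, μ x a = 1) ∧ (∀ t, ∑ᶠ s, ν t s = 1) ∧
    ∀ (t : X.R) (i : Fin 3) (a : A.D), μ (t.1 i) a = ∑ᶠ (s : A.R) (_ : s.1 i = a), ν t s

/-- AIP solves `PCSP(A, B)`: every finite instance accepted by AIP maps to `B`. -/
def AIPSolves (A B : Str) : Prop :=
  ∀ X : Str, Finite X.D → AIPAccepts X A → Hom X B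

/-! ### The colouring -/

/-- Leading 3-adic data: parity of the valuation, and the unit part mod 27. -/
def lead (d : ℤ) : ZMod 2 × ZMod 27 :=
  (((padicValInt 3 d : ℕ) : ZMod 2), ((d / 3 ^ padicValInt 3 d : ℤ) : ZMod 27))

/-- The finite colouring of the integers. -/
def col (x : ℤ) : ZMod 27 × (ZMod 2 × ZMod 27) × (ZMod 2 × ZMod 27) :=
  ((x : ZMod 27), lead x, lead (x - 1))

/-- The image structure of `(ℤ; x + y + z = 1)` under `col`. -/
def B : Str :=
  ⟨ZMod 27 × (ZMod 2 × ZMod 27) × (ZMod 2 × ZMod 27),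
    {t | ∃ x : Fin 3 → ℤ, x 0 + x 1 + x 2 = 1 ∧ ∀ i, t i = col (x i)}⟩

/-! ### Arithmetic of `lead` -/

theorem rep_unique {v w : ℕ} {u t : ℤ} (hu : ¬ (3 : ℤ) ∣ u) (ht : ¬ (3 : ℤ) ∣ t)
    (h : 3 ^ v * u = 3 ^ w * t) : v = w ∧ u = t := by
  rcases lt_trichotomy v w with hvw | hvw | hvw
  · exfalso
    obtain ⟨k, rfl⟩ := Nat.exists_eq_add_of_lt hvw
    apply hu
    have h3 : (3 : ℤ) ^ v ≠ 0 := by positivity
    have : (3 : ℤ) ^ v * u = 3 ^ v * (3 * (3 ^ k * t)) := by
      rw [h]; ring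
    have := mul_left_cancel₀ h3 this
    exact ⟨_, this⟩
  · subst hvw
    exact ⟨rfl, mul_left_cancel₀ (by positivity) h⟩
  · exfalso
    obtain ⟨k, rfl⟩ := Nat.exists_eq_add_of_lt hvw
    apply ht
    have h3 : (3 : ℤ) ^ w ≠ 0 := by positivity
    have : (3 : ℤ) ^ w * t = 3 ^ w * (3 * (3 ^ k * u)) := by
      rw [← h]; ring
    have := mul_left_cancel₀ h3 this
    exact ⟨_, this⟩

theorem exists_rep {d : ℤ} (hd : d ≠ 0) :
    ∃ (v : ℕ) (u : ℤ), d = 3 ^ v * u ∧ ¬ (3 : ℤ) ∣ u ∧ lead d = ((v : ZMod 2), (u : ZMod 27)) := by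
  have hf : Fact (Nat.Prime 3) := ⟨Nat.prime_three⟩
  have h1 : (3 : ℤ) ^ padicValInt 3 d ∣ d := by
    have := padicValInt_dvd (p := 3) d
    simpa using this
  obtain ⟨u, hu⟩ := h1
  refine ⟨padicValInt 3 d, u, hu, ?_, ?_⟩
  · rintro ⟨k, rfl⟩
    have h2 : ((3 : ℕ) : ℤ) ^ (padicValInt 3 d + 1) ∣ d := by
      refine ⟨k, ?_⟩
      push_cast
      rw [pow_succ, mul_assoc]
      exact hu
    rw [padicValInt_dvd_iff] at h2
    rcases h2 with h2 | h2
    · exact hd h2
    · omega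
  · unfold lead
    have : d / 3 ^ padicValInt 3 d = u :=
      Int.ediv_eq_of_eq_mul_right (by positivity) hu
    rw [this]

theorem lead_of_rep {d : ℤ} {v : ℕ} {u : ℤ} (h : d = 3 ^ v * u) (hu : ¬ (3 : ℤ) ∣ u) :
    lead d = ((v : ZMod 2), (u : ZMod 27)) := by
  have hd : d ≠ 0 := by
    rintro rfl
    have : u = 0 := by
      rcases mul_eq_zero.mp h.symm with h | h
      · exact absurd h (by positivity)
      · exact h
    exact hu (this ▸ dvd_zero 3)
  obtain ⟨w, t, h1, h2, h3⟩ := exists_rep hd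
  obtain ⟨rfl, rfl⟩ := rep_unique hu h2 (h ▸ h1)
  exact h3

theorem lead_zero : lead 0 = (0, 0) := by
  simp [lead]

/-- Three integers with sum zero realise the given leading data. -/
def Rel (α β γ : ZMod 2 × ZMod 27) : Prop :=
  ∃ d d' d'' : ℤ, d + d' + d'' = 0 ∧ lead d = α ∧ lead d' = β ∧ lead d'' = γ

theorem Rel.rot {α β γ : ZMod 2 × ZMod 27} (h : Rel α β γ) : Rel γ α β := by
  obtain ⟨d, d', d'', h1, h2, h3, h4⟩ := h
  exact ⟨d'', d, d', by linarith, h4, h2, h3⟩

theorem cast27 {a b : ℤ} : ((a : ZMod 27) = (b : ZMod 27)) ↔ (27 : ℤ) ∣ a - b := by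
  rw [ZMod.intCast_eq_intCast_iff_dvd_sub]
  constructor
  · intro h
    have := (dvd_neg (a := ((27 : ℕ) : ℤ))).mpr h
    simpa using this
  · intro h
    have := (dvd_neg (a := (27 : ℤ))).mpr h
    simpa using this

/-- A number whose leading data has unit part `a` not divisible by 3. -/
theorem rep_of_lead {d a : ℤ} {φ : ZMod 2} (ha : ¬ (3 : ℤ) ∣ a)
    (h : lead d = (φ, (a : ZMod 27))) :
    ∃ (v : ℕ) (k : ℤ), d = 3 ^ v * (a + 27 * k) ∧ (v : ZMod 2) = φ := by
  have hd : d ≠ 0 := by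
    rintro rfl
    rw [lead_zero] at h
    have h2 : ((0 : ℤ) : ZMod 27) = (a : ZMod 27) := by
      have := (Prod.ext_iff.mp h).2
      simpa using this
    rw [cast27] at h2
    omega
  obtain ⟨v, u, h1, h2, h3⟩ := exists_rep hd
  rw [h3] at h
  have h4 := (Prod.ext_iff.mp h).1
  have h5 := (Prod.ext_iff.mp h).2
  simp only at h4 h5
  rw [cast27] at h5
  obtain ⟨k, hk⟩ := h5
  refine ⟨v, k, ?_, h4⟩
  rw [h1]
  congr 1
  linarith

theorem pow_split {v w : ℕ} (h : v < w) : ∃ j, (3 : ℤ) ^ w = 3 ^ v * (3 * 3 ^ j) := by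
  obtain ⟨k, rfl⟩ := Nat.exists_eq_add_of_lt h
  exact ⟨k, by ring⟩

/-- Same class mod 3: the unit parts sum to zero mod 27. -/
theorem same_class {a b c : ℤ} {φ : ZMod 2} (ha : ¬ (3 : ℤ) ∣ a) (hb : (3 : ℤ) ∣ b - a)
    (hc : (3 : ℤ) ∣ c - a)
    (h : Rel (φ, (a : ZMod 27)) (φ, (b : ZMod 27)) (φ, (c : ZMod 27))) :
    (27 : ℤ) ∣ a + b + c := by
  obtain ⟨d, d', d'', h0, h1, h2, h3⟩ := h
  obtain ⟨v, k, hd, -⟩ := rep_of_lead ha h1
  obtain ⟨v', k', hd', -⟩ := rep_of_lead (by omega) h2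
  obtain ⟨v'', k'', hd'', -⟩ := rep_of_lead (by omega) h3
  have key : v = v' ∧ v = v'' := by
    by_contra hne
    -- look at the smallest exponent
    rcases le_total v v' with h12 | h12
    · rcases le_total v v'' with h13 | h13
      · -- v minimal
        have h3 : (3 : ℤ) ^ v ≠ 0 := by positivity
        rcases eq_or_lt_of_le h12 with e12 | l12
        · rcases eq_or_lt_of_le h13 with e13 | l13
          · exact hne ⟨e12, e13⟩
          · obtain ⟨j, hj⟩ := pow_split l13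
            rw [hd, hd', hd'', ← e12, hj] at h0
            have : (3 : ℤ) ^ v * ((a + 27 * k) + (b + 27 * k') + 3 * (3 ^ j * (c + 27 * k''))) = 0 := by
              linear_combination h0
            rcases mul_eq_zero.mp this with h | h
            · exact h3 h
            · generalize (3 : ℤ) ^ j * (c + 27 * k'') = t at h
              omega
        · obtain ⟨i, hi⟩ := pow_split l12
          rcases eq_or_lt_of_le h13 with e13 | l13
          · rw [hd, hd', hd'', ← e13, hi] at h0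
            have : (3 : ℤ) ^ v * ((a + 27 * k) + 3 * (3 ^ i * (b + 27 * k')) + (c + 27 * k'')) = 0 := by
              linear_combination h0
            rcases mul_eq_zero.mp this with h | h
            · exact h3 h
            · generalize (3 : ℤ) ^ i * (b + 27 * k') = t at h
              omega
          · obtain ⟨j, hj⟩ := pow_split l13
            rw [hd, hd', hd'', hi, hj] at h0
            have : (3 : ℤ) ^ v * ((a + 27 * k) + 3 * (3 ^ i * (b + 27 * k')) +
                3 * (3 ^ j * (c + 27 * k''))) = 0 := by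
              linear_combination h0
            rcases mul_eq_zero.mp this with h | h
            · exact h3 h
            · generalize (3 : ℤ) ^ i * (b + 27 * k') = t at h
              generalize (3 : ℤ) ^ j * (c + 27 * k'') = t' at h
              omega
      · -- v'' minimal, v'' ≤ v ≤ v'
        have h3 : (3 : ℤ) ^ v'' ≠ 0 := by positivity
        rcases eq_or_lt_of_le h13 with e13 | l13
        · rcases eq_or_lt_of_le h12 with e12 | l12
          · exact hne ⟨e12, e13.symm⟩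
          · obtain ⟨j, hj⟩ := pow_split l12
            rw [hd, hd', hd'', hj, e13] at h0
            have : (3 : ℤ) ^ v * ((a + 27 * k) + 3 * (3 ^ j * (b + 27 * k')) + (c + 27 * k'')) = 0 := by
              linear_combination h0
            rcases mul_eq_zero.mp this with h | h
            · exact h3 (e13 ▸ h)
            · generalize (3 : ℤ) ^ j * (b + 27 * k') = t at h
              omega
        · obtain ⟨i, hi⟩ := pow_split l13
          obtain ⟨j, hj⟩ := pow_split (lt_of_lt_of_le l13 h12)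
          rw [hd, hd', hd'', hi, hj] at h0
          have : (3 : ℤ) ^ v'' * (3 * (3 ^ i * (a + 27 * k)) + 3 * (3 ^ j * (b + 27 * k')) +
              (c + 27 * k'')) = 0 := by
            linear_combination h0
          rcases mul_eq_zero.mp this with h | h
          · exact h3 h
          · generalize (3 : ℤ) ^ i * (a + 27 * k) = t at h
            generalize (3 : ℤ) ^ j * (b + 27 * k') = t' at h
            omega
    · -- v' ≤ v
      rcases le_total v' v'' with h23 | h23
      · -- v' minimal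
        have h3 : (3 : ℤ) ^ v' ≠ 0 := by positivity
        rcases eq_or_lt_of_le h12 with e12 | l12
        · rcases eq_or_lt_of_le h23 with e23 | l23
          · exact hne ⟨e12.symm, e12 ▸ e23⟩
          · obtain ⟨j, hj⟩ := pow_split l23
            rw [hd, hd', hd'', ← e12, hj] at h0
            have : (3 : ℤ) ^ v' * ((a + 27 * k) + (b + 27 * k') + 3 * (3 ^ j * (c + 27 * k''))) = 0 := by
              linear_combination h0
            rcases mul_eq_zero.mp this with h | h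
            · exact h3 h
            · generalize (3 : ℤ) ^ j * (c + 27 * k'') = t at h
              omega
        · obtain ⟨i, hi⟩ := pow_split l12
          rcases eq_or_lt_of_le h23 with e23 | l23
          · rw [hd, hd', hd'', ← e23, hi] at h0
            have : (3 : ℤ) ^ v' * (3 * (3 ^ i * (a + 27 * k)) + (b + 27 * k') + (c + 27 * k'')) = 0 := by
              linear_combination h0
            rcases mul_eq_zero.mp this with h | h
            · exact h3 h
            · generalize (3 : ℤ) ^ i * (a + 27 * k) = t at h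
              omega
          · obtain ⟨j, hj⟩ := pow_split l23
            rw [hd, hd', hd'', hi, hj] at h0
            have : (3 : ℤ) ^ v' * (3 * (3 ^ i * (a + 27 * k)) + (b + 27 * k') +
                3 * (3 ^ j * (c + 27 * k''))) = 0 := by
              linear_combination h0
            rcases mul_eq_zero.mp this with h | h
            · exact h3 h
            · generalize (3 : ℤ) ^ i * (a + 27 * k) = t at h
              generalize (3 : ℤ) ^ j * (c + 27 * k'') = t' at h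
              omega
      · -- v'' minimal
        have h3 : (3 : ℤ) ^ v'' ≠ 0 := by positivity
        rcases eq_or_lt_of_le h23 with e23 | l23
        · rcases eq_or_lt_of_le h12 with e12 | l12
          · exact hne ⟨e12.symm, (e23.trans e12).symm⟩
          · obtain ⟨j, hj⟩ := pow_split l12
            rw [hd, hd', hd'', hj, e23] at h0
            have : (3 : ℤ) ^ v' * (3 * (3 ^ j * (a + 27 * k)) + (b + 27 * k') + (c + 27 * k'')) = 0 := by
              linear_combination h0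
            rcases mul_eq_zero.mp this with h | h
            · exact h3 (e23 ▸ h)
            · generalize (3 : ℤ) ^ j * (a + 27 * k) = t at h
              omega
        · obtain ⟨i, hi⟩ := pow_split l23
          obtain ⟨j, hj⟩ := pow_split (lt_of_lt_of_le l23 h12)
          rw [hd, hd', hd'', hi, hj] at h0
          have : (3 : ℤ) ^ v'' * (3 * (3 ^ j * (a + 27 * k)) + 3 * (3 ^ i * (b + 27 * k')) +
              (c + 27 * k'')) = 0 := by
            linear_combination h0
          rcases mul_eq_zero.mp this with h | h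
          · exact h3 h
          · generalize (3 : ℤ) ^ j * (a + 27 * k) = t at h
            generalize (3 : ℤ) ^ i * (b + 27 * k') = t' at h
            omega
  obtain ⟨rfl, rfl⟩ := key
  rw [hd, hd', hd''] at h0
  have : (3 : ℤ) ^ v * ((a + 27 * k) + (b + 27 * k') + (c + 27 * k'')) = 0 := by
    linear_combination h0
  rcases mul_eq_zero.mp this with h | h
  · exact absurd h (by positivity)
  · omega

theorem zmod2_cases {v w : ℕ} (h : (v : ZMod 2) = (w : ZMod 2)) : v % 2 = w % 2 := by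
  have := (ZMod.natCast_eq_natCast_iff v w 2).mp h
  exact this

/-- Two opposite classes on one level cancel into the next level. -/
theorem interplay {a b t : ℤ} {φ ψ : ZMod 2} {s : ZMod 27} (ha : ¬ (3 : ℤ) ∣ a)
    (ht : ¬ (3 : ℤ) ∣ t) (hab : (9 : ℤ) ∣ a + b - 3 * t)
    (h : Rel (ψ, s) (φ, (a : ZMod 27)) (φ, (b : ZMod 27))) :
    (ψ = φ + 1 ∧ 3 * s + ((a + b : ℤ) : ZMod 27) = 0) ∨
    (ψ = φ ∧ ∃ k : ℤ, s = ((-a + 9 * k : ℤ) : ZMod 27) ∨ s = ((-b + 9 * k : ℤ) : ZMod 27)) := by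
  obtain ⟨d, d', d'', h0, h1, h2, h3⟩ := h
  obtain ⟨v', k', hd', hv'⟩ := rep_of_lead ha h2
  obtain ⟨v'', k'', hd'', hv''⟩ := rep_of_lead (by omega) h3
  have hpar := zmod2_cases (hv'.trans hv''.symm)
  rcases lt_trichotomy v' v'' with hlt | heq | hlt
  · -- v' < v'': d is on the level of d'
    right
    obtain ⟨j, rfl⟩ : ∃ j, v'' = v' + 2 + j := ⟨v'' - v' - 2, by omega⟩
    have hd : d = 3 ^ v' * (-(a + 27 * k') - 9 * (3 ^ j * (b + 27 * k''))) := by
      rw [hd', hd''] at h0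
      have e : (3 : ℤ) ^ (v' + 2 + j) = 3 ^ v' * (9 * 3 ^ j) := by ring
      rw [e] at h0
      linear_combination h0
    have := lead_of_rep hd (by
      generalize (3 : ℤ) ^ j * (b + 27 * k'') = q
      omega)
    rw [h1] at this
    have e1 := (Prod.ext_iff.mp this).1
    have e2 := (Prod.ext_iff.mp this).2
    simp only at e1 e2
    refine ⟨e1.trans hv', -3 * k' - 3 ^ j * (b + 27 * k''), Or.inl ?_⟩
    rw [e2, cast27]
    exact ⟨0, by ring⟩
  · -- same level
    subst heq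
    left
    have hs : (3 : ℤ) ∣ (a + 27 * k') + (b + 27 * k'') := by omega
    obtain ⟨q, hq⟩ := hs
    have hq3 : ¬ (3 : ℤ) ∣ q := by omega
    have hd : d = 3 ^ (v' + 1) * (-q) := by
      rw [hd', hd''] at h0
      rw [pow_succ]
      linear_combination h0 - 3 ^ v' * hq
    have := lead_of_rep hd (by omega)
    rw [h1] at this
    have e1 := (Prod.ext_iff.mp this).1
    have e2 := (Prod.ext_iff.mp this).2
    simp only at e1 e2
    constructor
    · rw [e1]
      push_cast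
      rw [hv']
    · rw [e2]
      have : (((3 * (-q) + (a + b) : ℤ)) : ZMod 27) = ((0 : ℤ) : ZMod 27) := by
        rw [cast27]
        refine ⟨-k' - k'', ?_⟩
        linarith
      push_cast at this ⊢
      linear_combination this
  · right
    obtain ⟨j, rfl⟩ : ∃ j, v' = v'' + 2 + j := ⟨v' - v'' - 2, by omega⟩
    have hd : d = 3 ^ v'' * (-(b + 27 * k'') - 9 * (3 ^ j * (a + 27 * k'))) := by
      rw [hd', hd''] at h0
      have e : (3 : ℤ) ^ (v'' + 2 + j) = 3 ^ v'' * (9 * 3 ^ j) := by ring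
      rw [e] at h0
      linear_combination h0
    have := lead_of_rep hd (by
      generalize (3 : ℤ) ^ j * (a + 27 * k') = q
      omega)
    rw [h1] at this
    have e1 := (Prod.ext_iff.mp this).1
    have e2 := (Prod.ext_iff.mp this).2
    simp only at e1 e2
    refine ⟨e1.trans hv'', -3 * k'' - 3 ^ j * (a + 27 * k'), Or.inr ?_⟩
    rw [e2, cast27]
    exact ⟨0, by ring⟩

/-! ### The descent -/

/-- The local problem near the two singular points: `F` near 0 and `G` near 1. -/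
structure Good (L : ℕ) (φ : ZMod 2) (F G : ℤ → ZMod 2 × ZMod 27) : Prop where
  rel : ∀ x y z : ℤ, (3 : ℤ) ^ L ∣ x + y + z → Rel (F x) (F y) (G z)
  natF : ∀ y : ℤ, ∃ k : ℤ, ¬ (3 : ℤ) ∣ y → F y = (φ, ((y + 9 * k : ℤ) : ZMod 27))
  natG : ∀ y : ℤ, ∃ k : ℤ, ¬ (3 : ℤ) ∣ y → G y = (φ, ((y + 9 * k : ℤ) : ZMod 27))

theorem not_good_zero {φ : ZMod 2} {F G : ℤ → ZMod 2 × ZMod 27} (h : Good 0 φ F G) : False := by
  obtain ⟨k, hk⟩ := h.natF 1
  obtain ⟨l, hl⟩ := h.natG 1
  have h1 := h.rel 1 1 1 (by simp)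
  rw [hk (by omega), hl (by omega)] at h1
  have := same_class (by omega) (by omega) (by omega) h1
  omega

/-- On the next level the values are pinned mod 9, up to one common shift. -/
theorem next_level {φ : ZMod 2} {F H : ℤ → ZMod 2 × ZMod 27} {w : ℤ} {s : ZMod 2 × ZMod 27}
    (c d : ℤ → ℤ)
    (hw : ¬ (3 : ℤ) ∣ w)
    (hF : ∀ y : ℤ, ¬ (3 : ℤ) ∣ y → F y = (φ, ((y + 9 * c y : ℤ) : ZMod 27)))
    (hH : ∀ y : ℤ, ¬ (3 : ℤ) ∣ y → H y = (φ, ((y + 9 * d y : ℤ) : ZMod 27)))
    (hrel : ∀ y : ℤ, ¬ (3 : ℤ) ∣ y → Rel s (F y) (H (-y - 3 * w))) :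
    s.1 = φ + 1 ∧ ∀ y : ℤ, ¬ (3 : ℤ) ∣ y →
      3 * s.2 = ((3 * w - 9 * (c y + d (-y - 3 * w)) : ℤ) : ZMod 27) := by
  have main : ∀ y : ℤ, ¬ (3 : ℤ) ∣ y →
      (s.1 = φ + 1 ∧ 3 * s.2 + (((y + 9 * c y) + ((-y - 3 * w) + 9 * d (-y - 3 * w)) : ℤ) : ZMod 27) = 0) ∨
      (s.1 = φ ∧ ∃ k : ℤ, s.2 = ((-(y + 9 * c y) + 9 * k : ℤ) : ZMod 27) ∨
        s.2 = ((-((-y - 3 * w) + 9 * d (-y - 3 * w)) + 9 * k : ℤ) : ZMod 27)) := by
    intro y hy
    have h1 := hrel y hy
    rw [hF y hy, hH _ (by omega)] at h1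
    have hs : s = (s.1, s.2) := rfl
    rw [hs] at h1
    exact interplay (t := -w) (by omega) (by omega) (by omega) h1
  have h1 : s.1 = φ + 1 := by
    rcases main 1 (by omega) with h | ⟨hφ, k, hk⟩
    · exact h.1
    · rcases main 4 (by omega) with h | ⟨-, l, hl⟩
      · exact h.1
      · exfalso
        rcases hk with hk | hk <;> rcases hl with hl | hl <;>
        · have := hk.symm.trans hl
          rw [cast27] at this
          omega
  refine ⟨h1, fun y hy => ?_⟩
  rcases main y hy with h | h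
  · have h2 := h.2
    push_cast at h2 ⊢
    linear_combination h2
  · exfalso
    have : (1 : ZMod 2) = 0 := by
      have h3 : φ + 1 = φ := h1.symm.trans h.1
      linear_combination h3
    exact absurd this (by decide)

theorem third {s : ZMod 27} {w : ℤ} (h : 3 * s = ((3 * w : ℤ) : ZMod 27)) :
    ∃ k : ℤ, s = ((w + 9 * k : ℤ) : ZMod 27) := by
  obtain ⟨a, rfl⟩ := ZMod.intCast_surjective s
  have h1 : ((3 * a : ℤ) : ZMod 27) = ((3 * w : ℤ) : ZMod 27) := by
    rw [← h]; push_cast; rfl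
  rw [cast27] at h1
  refine ⟨(a - w) / 9, ?_⟩
  rw [cast27]
  omega

theorem step {L : ℕ} {φ : ZMod 2} {F G : ℤ → ZMod 2 × ZMod 27} (h : Good (L + 1) φ F G) :
    ∃ F' G' : ℤ → ZMod 2 × ZMod 27, Good L (φ + 1) F' G' := by
  choose c hF using h.natF
  choose d hG using h.natG
  have h1 : ∀ x y z : ℤ, ¬ (3 : ℤ) ∣ x → (3 : ℤ) ∣ y - x → (3 : ℤ) ∣ z - x → x + y + z = 0 →
      (3 : ℤ) ∣ c x + c y + d z := by
    intro x y z hx hy hz hs
    have hr := h.rel x y z (by rw [hs]; exact dvd_zero _)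
    rw [hF x hx, hF y (by omega), hG z (by omega)] at hr
    have := same_class (by omega) (by omega) (by omega) hr
    omega
  have nF : ∀ w : ℤ, ¬ (3 : ℤ) ∣ w → (F (3 * w)).1 = φ + 1 ∧ ∀ y : ℤ, ¬ (3 : ℤ) ∣ y →
      3 * (F (3 * w)).2 = ((3 * w - 9 * (c y + d (-y - 3 * w)) : ℤ) : ZMod 27) := by
    intro w hw
    refine next_level c d hw hF hG ?_
    intro y _
    exact h.rel _ _ _ (by
      have : 3 * w + y + (-y - 3 * w) = 0 := by ring
      rw [this]; exact dvd_zero _)
  have nG : ∀ w : ℤ, ¬ (3 : ℤ) ∣ w → (G (3 * w)).1 = φ + 1 ∧ ∀ y : ℤ, ¬ (3 : ℤ) ∣ y →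
      3 * (G (3 * w)).2 = ((3 * w - 9 * (c y + c (-y - 3 * w)) : ℤ) : ZMod 27) := by
    intro w hw
    refine next_level c c hw hF hF ?_
    intro y _
    refine Rel.rot ?_
    exact h.rel _ _ _ (by
      have : y + (-y - 3 * w) + 3 * w = 0 := by ring
      rw [this]; exact dvd_zero _)
  have h2 : ∀ w y : ℤ, ¬ (3 : ℤ) ∣ w → ¬ (3 : ℤ) ∣ y →
      (3 : ℤ) ∣ (c y + d (-y - 3 * w)) - (c 1 + d (-1 - 3 * w)) := by
    intro w y hw hy
    have := ((nF w hw).2 y hy).symm.trans ((nF w hw).2 1 (by omega))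
    rw [cast27] at this
    omega
  have h2' : ∀ w y : ℤ, ¬ (3 : ℤ) ∣ w → ¬ (3 : ℤ) ∣ y →
      (3 : ℤ) ∣ (c y + c (-y - 3 * w)) - (c 1 + c (-1 - 3 * w)) := by
    intro w y hw hy
    have := ((nG w hw).2 y hy).symm.trans ((nG w hw).2 1 (by omega))
    rw [cast27] at this
    omega
  -- `d - c` is constant
  have ha : ∀ z : ℤ, ¬ (3 : ℤ) ∣ z → (3 : ℤ) ∣ d z - c z - (d (-4) - c (-4)) := by
    intro z hz
    have e1 := h2 1 (-z - 3) (by omega) (by omega)
    have e2 := h2' 1 (-z - 3) (by omega) (by omega)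
    have e3 : -(-z - 3) - 3 * 1 = z := by ring
    rw [e3] at e1 e2
    norm_num at e1 e2
    omega
  -- `c (y + 3) - c y` is constant
  have hb : ∀ y : ℤ, ¬ (3 : ℤ) ∣ y → (3 : ℤ) ∣ c (y + 3) - c y - (c (-4) - c (-7)) := by
    intro y hy
    have e1 := h2' 2 y (by omega) (by omega)
    have e2 := h2' 1 (y + 3) (by omega) (by omega)
    have e3 : -(y + 3) - 3 * 1 = -y - 3 * 2 := by ring
    rw [e3] at e2
    norm_num at e1 e2
    omega
  have hκ : (3 : ℤ) ∣ d (-4) - c (-4) ∧ (3 : ℤ) ∣ c (-4) - c (-7) := by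
    have f1 := h1 1 1 (-2) (by omega) (by omega) (by omega) (by omega)
    have f2 := h1 2 2 (-4) (by omega) (by omega) (by omega) (by omega)
    have f3 := ha (-2) (by omega)
    have f4 := hb (-2) (by omega)
    have f5 := hb (-4) (by omega)
    have f6 := hb (-1) (by omega)
    norm_num at f4 f5 f6
    omega
  have hcd : ∀ z : ℤ, ¬ (3 : ℤ) ∣ z → (3 : ℤ) ∣ d z - c z := by
    intro z hz
    have := ha z hz
    omega
  have hper : ∀ k : ℤ, ∀ y : ℤ, ¬ (3 : ℤ) ∣ y → (3 : ℤ) ∣ c (y + 3 * k) - c y := by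
    intro k
    induction k using Int.induction_on with
    | zero => intro y _; simp
    | succ k ih =>
      intro y hy
      have e1 := ih y hy
      have e2 := hb (y + 3 * k) (by omega)
      have e3 : y + 3 * ((k : ℤ) + 1) = y + 3 * k + 3 := by ring
      rw [e3]
      omega
    | pred k ih =>
      intro y hy
      have e1 := ih y hy
      have e2 := hb (y + 3 * (-(k : ℤ) - 1)) (by omega)
      have e3 : y + 3 * (-(k : ℤ) - 1) + 3 = y + 3 * (-(k : ℤ)) := by ring
      rw [e3] at e2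
      omega
  obtain ⟨e, he⟩ : ∃ e : ℤ, e = c 1 + c 2 := ⟨_, rfl⟩
  have hE : ∀ w : ℤ, ¬ (3 : ℤ) ∣ w → (3 : ℤ) ∣ c 1 + c (-1 - 3 * w) - e := by
    intro w _
    have := hper (-1 - w) 2 (by omega)
    have e3 : 2 + 3 * (-1 - w) = -1 - 3 * w := by ring
    rw [e3] at this
    omega
  refine ⟨fun x => F (3 * (x + 3 * e)), fun x => G (3 * (x - 6 * e)), ⟨?_, ?_, ?_⟩⟩
  · intro x y z hxyz
    refine h.rel _ _ _ ?_
    obtain ⟨q, hq⟩ := hxyz
    refine ⟨q, ?_⟩
    rw [pow_succ]
    linear_combination 3 * hq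
  · intro w
    by_cases hw : (3 : ℤ) ∣ w
    · exact ⟨0, fun h => absurd hw h⟩
    · have hw' : ¬ (3 : ℤ) ∣ w + 3 * e := by omega
      have n1 := nF (w + 3 * e) hw'
      have n2 := n1.2 1 (by omega)
      have e1 := hE (w + 3 * e) hw'
      have e2 := hcd (-1 - 3 * (w + 3 * e)) (by omega)
      have n3 : 3 * (F (3 * (w + 3 * e))).2 = ((3 * w : ℤ) : ZMod 27) := by
        rw [n2, cast27]
        omega
      obtain ⟨k, hk⟩ := third n3
      exact ⟨k, fun _ => Prod.ext n1.1 hk⟩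
  · intro w
    by_cases hw : (3 : ℤ) ∣ w
    · exact ⟨0, fun h => absurd hw h⟩
    · have hw' : ¬ (3 : ℤ) ∣ w - 6 * e := by omega
      have n1 := nG (w - 6 * e) hw'
      have n2 := n1.2 1 (by omega)
      have e1 := hE (w - 6 * e) hw'
      have n3 : 3 * (G (3 * (w - 6 * e))).2 = ((3 * w : ℤ) : ZMod 27) := by
        rw [n2, cast27]
        omega
      obtain ⟨k, hk⟩ := third n3
      exact ⟨k, fun _ => Prod.ext n1.1 hk⟩

theorem not_good : ∀ (L : ℕ) (φ : ZMod 2) (F G : ℤ → ZMod 2 × ZMod 27), ¬ Good L φ F G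
  | 0, _, _, _, h => not_good_zero h
  | L + 1, _, _, _, h => by
    obtain ⟨F', G', h'⟩ := step h
    exact not_good L _ _ _ h'

/-! ### From a homomorphism to the local problem -/

/-- A homomorphism from `E_m × NAE` to `B`, written on the integers. -/
def HomZ (m : ℤ) (g : ℤ → Fin 2 → B.D) : Prop :=
  ∀ x y z : ℤ, m ∣ x + y + z - 1 → ∀ a b c : Fin 2, ¬ (a = b ∧ b = c) →
    ∃ n₀ n₁ n₂ : ℤ, n₀ + n₁ + n₂ = 1 ∧ g x a = col n₀ ∧ g y b = col n₁ ∧ g z c = col n₂

theorem homZ_of_hom {m : ℕ} (hm : 1 ≤ m) (h : Hom (prod (E m) NAE) B) :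
    ∃ g, HomZ (m : ℤ) g := by
  obtain ⟨f, hf⟩ := h
  have hlt : ∀ x : ℤ, (x % (m : ℤ)).toNat < m := by
    intro x
    have h1 := Int.emod_nonneg x (b := (m : ℤ)) (by omega)
    have h2 := Int.emod_lt_of_pos x (b := (m : ℤ)) (by omega)
    omega
  let r : ℤ → Fin m := fun x => ⟨(x % (m : ℤ)).toNat, hlt x⟩
  refine ⟨fun x a => f (r x, a), ?_⟩
  intro x y z hxyz a b c habc
  have hmem : (![(r x, a), (r y, b), (r z, c)] : Fin 3 → (prod (E m) NAE).D) ∈
      (prod (E m) NAE).R := by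
    constructor
    · change (r x : ℕ) + (r y : ℕ) + (r z : ℕ) ≡ 1 [MOD m]
      rw [← Int.natCast_modEq_iff]
      push_cast
      have hx : ((r x : ℕ) : ℤ) = x % m :=
        Int.toNat_of_nonneg (Int.emod_nonneg x (b := (m : ℤ)) (by omega))
      have hy : ((r y : ℕ) : ℤ) = y % m :=
        Int.toNat_of_nonneg (Int.emod_nonneg y (b := (m : ℤ)) (by omega))
      have hz : ((r z : ℕ) : ℤ) = z % m :=
        Int.toNat_of_nonneg (Int.emod_nonneg z (b := (m : ℤ)) (by omega))
      rw [hx, hy, hz]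
      have e : x % m + y % m + z % m ≡ x + y + z [ZMOD m] :=
        ((Int.mod_modEq x m).add (Int.mod_modEq y m)).add (Int.mod_modEq z m)
      refine e.trans ?_
      exact (Int.modEq_iff_dvd.mpr hxyz).symm
    · constructor
      · intro h
        apply habc
        have h0 := congrFun h 0
        have h1 := congrFun h 1
        have h2 := congrFun h 2
        simp at h0 h1 h2
        exact ⟨h0.trans h1.symm, h1.trans h2.symm⟩
      · intro h
        apply habc
        have h0 := congrFun h 0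
        have h1 := congrFun h 1
        have h2 := congrFun h 2
        simp at h0 h1 h2
        exact ⟨h0.trans h1.symm, h1.trans h2.symm⟩
  obtain ⟨n, hn, hi⟩ := hf _ hmem
  exact ⟨n 0, n 1, n 2, hn, hi 0, hi 1, hi 2⟩

theorem homZ_pow {p : ℕ} {m' : ℤ} {g : ℤ → Fin 2 → B.D} (hc : IsCoprime (3 : ℤ) m')
    (h : HomZ (3 ^ p * m') g) : ∃ g', HomZ (3 ^ p) g' := by
  obtain ⟨u, t, hut⟩ := (hc.pow_left (m := p + 1))
  refine ⟨fun x a => g (t * m' * x + u * 3 ^ p) a, ?_⟩
  intro x y z hxyz a b c habc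
  refine h _ _ _ ?_ a b c habc
  obtain ⟨q, hq⟩ := hxyz
  refine ⟨t * q, ?_⟩
  rw [pow_succ] at hut
  linear_combination (t * m') * hq + hut

theorem pinned {m : ℤ} {g : ℤ → Fin 2 → B.D} (h : HomZ m g) :
    ∃ ρ : ℤ, ∀ x a, (g x a).1 = ((ρ + x * (1 - 3 * ρ) : ℤ) : ZMod 27) := by
  have key : ∀ x y z : ℤ, x + y + z = 1 → ∀ a b c : Fin 2, ¬ (a = b ∧ b = c) →
      (g x a).1 + (g y b).1 + (g z c).1 = 1 := by
    intro x y z hs a b c habc
    obtain ⟨n₀, n₁, n₂, h0, h1, h2, h3⟩ := h x y z (by rw [hs]; simp) a b c habc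
    rw [h1, h2, h3]
    change ((n₀ : ZMod 27)) + (n₁ : ZMod 27) + (n₂ : ZMod 27) = 1
    rw [← Int.cast_add, ← Int.cast_add, h0]
    simp
  have hind : ∀ y : ℤ, (g y 0).1 = (g y 1).1 := by
    intro y
    have h1 := key 0 y (1 - y) (by ring) 0 0 1 (by decide)
    have h2 := key 0 y (1 - y) (by ring) 0 1 1 (by decide)
    linear_combination h1 - h2
  obtain ⟨ρ, hρ⟩ := ZMod.intCast_surjective (g 0 0).1
  refine ⟨ρ, ?_⟩
  have hadd : ∀ x y : ℤ, ((g (x + y) 0).1 - (g 0 0).1) =
      ((g x 0).1 - (g 0 0).1) + ((g y 0).1 - (g 0 0).1) := by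
    intro x y
    have h1 := key x y (1 - x - y) (by ring) 0 0 1 (by decide)
    have h2 := key (x + y) 0 (1 - x - y) (by ring) 0 0 1 (by decide)
    linear_combination h2 - h1
  let A : ℤ →+ ZMod 27 := AddMonoidHom.mk' (fun x => (g x 0).1 - (g 0 0).1) hadd
  have hA : ∀ x : ℤ, (g x 0).1 - (g 0 0).1 = x * ((g 1 0).1 - (g 0 0).1) := by
    intro x
    have := map_zsmul A x 1
    simp only [smul_eq_mul, mul_one] at this
    change (g x 0).1 - (g 0 0).1 = x • ((g 1 0).1 - (g 0 0).1) at this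
    rw [this, zsmul_eq_mul]
  have h1 : (g 1 0).1 = 1 - 2 * (g 0 0).1 := by
    have := key 0 0 1 (by ring) 0 0 1 (by decide)
    rw [← hind 1] at this
    linear_combination this
  have h0 : ∀ x : ℤ, (g x 0).1 = ((ρ + x * (1 - 3 * ρ) : ℤ) : ZMod 27) := by
    intro x
    have := hA x
    rw [h1, ← hρ] at this
    push_cast
    linear_combination this
  intro x a
  fin_cases a
  · exact h0 x
  · exact (hind x).symm.trans (h0 x)

theorem good_of_homZ {p : ℕ} {g : ℤ → Fin 2 → B.D} (h : HomZ (3 ^ p) g) :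
    ∃ F G : ℤ → ZMod 2 × ZMod 27, Good p 1 F G := by
  obtain ⟨ρ, hρ⟩ := pinned h
  have hcop : IsCoprime (1 - 3 * ρ) (3 : ℤ) := ⟨1, ρ, by ring⟩
  obtain ⟨u, v, huv⟩ := (hcop.pow_right (n := p + 3))
  have hcol : ∀ x : ℤ, ∀ a : Fin 2, ∃ n : ℤ, g x a = col n := by
    intro x a
    obtain ⟨n₀, _, _, _, h1, _, _⟩ := h x 0 (1 - x) (by
      have : x + 0 + (1 - x) - 1 = 0 := by ring
      rw [this]; exact dvd_zero _) a 0 1 (by
        intro hh
        exact absurd hh.2 (by decide))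
    exact ⟨n₀, h1⟩
  refine ⟨fun δ => (g (u * (3 * δ - ρ)) 0).2.1, fun δ => (g (u * (1 + 3 * δ - ρ)) 1).2.2,
    ⟨?_, ?_, ?_⟩⟩
  · intro x y z hxyz
    obtain ⟨q, hq⟩ := hxyz
    obtain ⟨n₀, n₁, n₂, h0, h1, h2, h3⟩ := h (u * (3 * x - ρ)) (u * (3 * y - ρ))
      (u * (1 + 3 * z - ρ)) ⟨-v * 27 + 3 * u * q, by
        rw [pow_add] at huv
        linear_combination (3 * u) * hq + huv⟩ 0 0 1 (by decide)
    refine ⟨n₀, n₁, n₂ - 1, by linarith, ?_, ?_, ?_⟩
    · simp only [h1, col]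
    · simp only [h2, col]
    · simp only [h3, col]
  · intro y
    obtain ⟨n, hn⟩ := hcol (u * (3 * y - ρ)) 0
    have h1 := hρ (u * (3 * y - ρ)) 0
    rw [hn] at h1
    change (n : ZMod 27) = _ at h1
    rw [cast27] at h1
    obtain ⟨k, hk⟩ := h1
    rw [pow_add] at huv
    refine ⟨k - v * 3 ^ p * (3 * y - ρ), fun hy => ?_⟩
    simp only [hn, col]
    have e : n = 3 ^ 1 * (y + 9 * (k - v * 3 ^ p * (3 * y - ρ))) := by
      linear_combination hk + (3 * y - ρ) * huv
    rw [lead_of_rep e (by omega)]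
    simp
  · intro y
    obtain ⟨n, hn⟩ := hcol (u * (1 + 3 * y - ρ)) 1
    have h1 := hρ (u * (1 + 3 * y - ρ)) 1
    rw [hn] at h1
    change (n : ZMod 27) = _ at h1
    rw [cast27] at h1
    obtain ⟨k, hk⟩ := h1
    rw [pow_add] at huv
    refine ⟨k - v * 3 ^ p * (1 + 3 * y - ρ), fun hy => ?_⟩
    simp only [hn, col]
    have e : n - 1 = 3 ^ 1 * (y + 9 * (k - v * 3 ^ p * (1 + 3 * y - ρ))) := by
      linear_combination hk + (1 + 3 * y - ρ) * huv
    rw [lead_of_rep e (by omega)]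
    simp

theorem no_hom {m : ℕ} (hm : 1 ≤ m) : ¬ Hom (prod (E m) NAE) B := by
  intro h
  obtain ⟨g, hg⟩ := homZ_of_hom hm h
  obtain ⟨p, m', hm', hmm⟩ := Nat.exists_eq_pow_mul_and_not_dvd (n := m) (by omega) 3 (by norm_num)
  rw [hmm] at hg
  have hcop : IsCoprime (3 : ℤ) (m' : ℤ) := by
    have : Nat.Coprime 3 m' := (Nat.Prime.coprime_iff_not_dvd Nat.prime_three).mpr hm'
    exact_mod_cast Nat.isCoprime_iff_coprime.mpr this
  push_cast at hg
  obtain ⟨g', hg'⟩ := homZ_pow hcop hg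
  obtain ⟨F, G, hG⟩ := good_of_homZ hg'
  exact not_good _ _ _ _ hG

/-! ### AIP solves the problem -/

theorem ite_sum {p q r : Prop} [Decidable p] [Decidable q] [Decidable r] (x : ℤ)
    (h : (p ∧ ¬ q ∧ ¬ r) ∨ (¬ p ∧ q ∧ ¬ r) ∨ (¬ p ∧ ¬ q ∧ r)) :
    (if p then x else 0) + (if q then x else 0) + (if r then x else 0) = x := by
  rcases h with ⟨a, b, c⟩ | ⟨a, b, c⟩ | ⟨a, b, c⟩ <;> simp [a, b, c]

theorem aip_to_int {X : Str} (h : AIPAccepts X oneInThree) :
    ∃ f : X.D → ℤ, ∀ t ∈ X.R, f (t 0) + f (t 1) + f (t 2) = 1 := by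
  classical
  obtain ⟨μ, ν, -, h2, h3⟩ := h
  refine ⟨fun x => μ x (1 : Fin 2), fun t ht => ?_⟩
  have i1 : Finite (Fin 3 → oneInThree.D) := by
    change Finite (Fin 3 → Fin 2)
    infer_instance
  have i2 : Finite oneInThree.R := inferInstance
  have i3 : Fintype oneInThree.R := Fintype.ofFinite _
  have e : ∀ i, μ (t i) (1 : Fin 2) =
      ∑ s : oneInThree.R, if s.1 i = (1 : Fin 2) then ν ⟨t, ht⟩ s else 0 := by
    intro i
    have := h3 ⟨t, ht⟩ i (1 : Fin 2)
    rw [this, finsum_eq_sum_of_fintype]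
    refine Finset.sum_congr rfl fun s _ => ?_
    exact finsum_eq_if
  change μ (t 0) (1 : Fin 2) + μ (t 1) (1 : Fin 2) + μ (t 2) (1 : Fin 2) = 1
  rw [e 0, e 1, e 2, ← Finset.sum_add_distrib, ← Finset.sum_add_distrib]
  have h4 := h2 ⟨t, ht⟩
  rw [finsum_eq_sum_of_fintype] at h4
  rw [← h4]
  refine Finset.sum_congr rfl fun s _ => ?_
  rcases s with ⟨s, hs⟩
  have h01 : ¬ ((0 : Fin 2) = 1) := by decide
  refine ite_sum _ ?_
  rcases hs with rfl | rfl | rfl
  · exact Or.inl ⟨rfl, h01, h01⟩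
  · exact Or.inr (Or.inl ⟨h01, rfl, h01⟩)
  · exact Or.inr (Or.inr ⟨h01, h01, rfl⟩)

theorem aip_solves : AIPSolves oneInThree B := by
  intro X _ h
  obtain ⟨f, hf⟩ := aip_to_int h
  exact ⟨fun x => col (f x), fun t ht => ⟨fun i => f (t i), hf t ht, fun _ => rfl⟩⟩

theorem oneInThree_hom : Hom oneInThree B := by
  refine ⟨fun a : Fin 2 => col ((a : ℕ) : ℤ), fun t ht =>
    ⟨fun i => ((@Fin.val 2 (t i) : ℕ) : ℤ), ?_, fun _ => rfl⟩⟩
  rcases ht with rfl | rfl | rfl
  · rfl
  · rfl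
  · rfl

/-- **The only-if direction fails.** There is a finite structure `B` with one ternary relation
such that `1in3 → B` and AIP solves `PCSP(1in3, B)`, but no `E_{3^p} × NAE`, and more generally
no `E_m × NAE` with `m ≥ 1`, has a homomorphism to `B`. -/
theorem result : ∃ B : Str, Finite B.D ∧ Hom oneInThree B ∧ AIPSolves oneInThree B ∧
    (∀ p : ℕ, ¬ Hom (prod (E (3 ^ p)) NAE) B) ∧
    ∀ m : ℕ, 1 ≤ m → ¬ Hom (prod (E m) NAE) B := by
  refine ⟨B, ?_, oneInThree_hom, aip_solves, fun p => no_hom (Nat.one_le_pow _ _ (by norm_num)),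
    fun m hm => no_hom hm⟩
  change Finite (ZMod 27 × (ZMod 2 × ZMod 27) × (ZMod 2 × ZMod 27))
  infer_instance

end Pool.Agent.Results.MP_981e77_lc.NoFiniteWitness
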